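import Pool.Agent.Helper4.CD.St

/-! MODULE FC of project CD (MP_a41ee4_co): pairs with common facets. -/

set_option autoImplicit false

namespace Pool.Agent.Helper95.CD

open Pool.Agent.Helper4.CD
open Module

section

variable {K : Type} [Field K] [LinearOrder K] {V : Type} [AddCommGroup V] [Module K V] {κ : Type}

/-- the common face directions -/
private def Gs (c : κ → Dual K V) (S : Set κ) : Submodule K V := ⨅ k ∈ S, LinearMap.ker (c k)

private theorem mem_Gs (c : κ → Dual K V) (S : Set κ) (x : V) : x ∈ Gs c S ↔ ∀ k ∈ S, c k x = 0 := by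
  unfold Gs
  simp [Submodule.mem_iInf, LinearMap.mem_ker]

/-- the restricted rows -/
private def cr (c : κ → Dual K V) (S : Set κ) : {k : κ // k ∉ S} → Dual K (Gs c S) :=
  fun k => (c k.1).comp (Gs c S).subtype

private def rr (c : κ → Dual K V) (r : κ → K) (u : V) (S : Set κ) : {k : κ // k ∉ S} → K :=
  fun k => r k.1 - c k.1 u

private theorem cr_apply (c : κ → Dual K V) (S : Set κ) (k : {k : κ // k ∉ S}) (x : Gs c S) :
    cr c S k x = c k.1 (x : V) := rfl

variable [IsStrictOrderedRing K]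

private theorem poly_iff (c : κ → Dual K V) (r : κ → K) (u : V) (S : Set κ) (hS : ∀ k ∈ S, c k u = r k)
    (x : Gs c S) : u + (x : V) ∈ Poly c r ↔ x ∈ Poly (cr c S) (rr c r u S) := by
  constructor
  · intro h k
    have h1 := h k.1
    rw [map_add] at h1
    change r k.1 - c k.1 u ≤ c k.1 (x : V)
    linarith
  · intro h k
    rw [map_add]
    by_cases hk : k ∈ S
    · rw [hS k hk, (mem_Gs c S _).1 x.2 k hk, add_zero]
    · have h1 := h ⟨k, hk⟩
      change r k - c k u ≤ c k (x : V) at h1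
      linarith

private theorem circ_of (c : κ → Dual K V) (S : Set κ) (g : Gs c S) (hg : IsCircuit (cr c S) g) :
    IsCircuit c (g : V) := by
  refine ⟨fun h => hg.1 (Subtype.ext h), ?_⟩
  intro x hx hsub k hk
  have hxG : x ∈ Gs c S := (mem_Gs c S x).2 (fun k hk => hsub k ((mem_Gs c S _).1 g.2 k hk))
  by_cases hkS : k ∈ S
  · exact (mem_Gs c S _).1 g.2 k hkS
  · exact hg.2 ⟨x, hxG⟩ (fun h => hx (congrArg Subtype.val h)) (fun j hj => hsub j.1 hj) ⟨k, hkS⟩ hk

private theorem step_of (c : κ → Dual K V) (r : κ → K) (u : V) (S : Set κ) (hS : ∀ k ∈ S, c k u = r k)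
    (x y : Gs c S) (h : Step (cr c S) (rr c r u S) x y) : Step c r (u + (x : V)) (u + (y : V)) := by
  obtain ⟨g, α, hg, hα, hy, hP, hmax⟩ := h
  refine ⟨(g : V), α, circ_of c S g hg, hα, ?_, (poly_iff c r u S hS y).2 hP, ?_⟩
  · rw [hy]
    push_cast
    rw [add_assoc]
  · intro β hβ hin
    apply hmax β hβ
    rw [← poly_iff c r u S hS]
    push_cast
    rw [← add_assoc]
    exact hin

private theorem walk_of (c : κ → Dual K V) (r : κ → K) (u v : V) (S : Set κ) (hS : ∀ k ∈ S, c k u = r k)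
    (hu : u ∈ Poly c r) (hw : v - u ∈ Gs c S) (m : ℕ)
    (h : Walk (cr c S) (rr c r u S) m 0 ⟨v - u, hw⟩) : Walk c r m u v := by
  obtain ⟨z, hz0, hzm, _, hst⟩ := h
  refine ⟨fun i => u + (z i : V), ?_, ?_, hu, fun i hi => step_of c r u S hS _ _ (hst i hi)⟩
  · change u + (z 0 : V) = u
    rw [hz0]
    simp
  · change u + (z m : V) = v
    rw [hzm]
    simp

private theorem pair_of (c : κ → Dual K V) (r : κ → K) (u v : V) (hu : IsVertex c r u)
    (hv : IsVertex c r v) (S : Set κ) (hS : S = {k | c k u = r k ∧ c k v = r k}) (hw : v - u ∈ Gs c S) :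
    Pair (cr c S) (rr c r u S) 0 ⟨v - u, hw⟩ := by
  have hmem : ∀ j, j ∈ S ↔ (c j u = r j ∧ c j v = r j) := by
    intro j
    rw [hS]
    rfl
  have e0 : ∀ k, cr c S k 0 = 0 := fun k => map_zero _
  have e1 : ∀ k, cr c S k ⟨v - u, hw⟩ = c k.1 v - c k.1 u := fun k => map_sub (c k.1) v u
  refine ⟨⟨?_, ?_⟩, ⟨?_, ?_⟩, ?_⟩
  · intro k
    rw [e0]
    change r k.1 - c k.1 u ≤ 0
    have := hu.1 k.1
    linarith
  · intro y hy
    apply Subtype.ext
    apply hu.2
    intro k hk
    by_cases hkS : k ∈ S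
    · exact (mem_Gs c S _).1 y.2 k hkS
    · apply hy ⟨k, hkS⟩
      rw [e0]
      change 0 = r k - c k u
      rw [hk, sub_self]
  · intro k
    rw [e1]
    change r k.1 - c k.1 u ≤ _
    have := hv.1 k.1
    linarith
  · intro y hy
    apply Subtype.ext
    apply hv.2
    intro k hk
    by_cases hkS : k ∈ S
    · exact (mem_Gs c S _).1 y.2 k hkS
    · apply hy ⟨k, hkS⟩
      rw [e1]
      change c k v - c k u = r k - c k u
      rw [hk]
  · rintro k ⟨h1, h2⟩
    rw [e0] at h1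
    rw [e1] at h2
    change 0 = r k.1 - c k.1 u at h1
    change _ = r k.1 - c k.1 u at h2
    exact k.2 ((hmem k.1).2 ⟨by linarith, by linarith⟩)

private theorem nei_le [Finite κ] (c : κ → Dual K V) (r : κ → K) (u v : V) (S : Set κ)
    (hw : v - u ∈ Gs c S) :
    Nat.card (Nei (cr c S) (rr c r u S) 0 ⟨v - u, hw⟩) ≤ Nat.card (Nei c r u v) := by
  have key : ∀ k : {k : κ // k ∉ S}, k ∈ Nei (cr c S) (rr c r u S) 0 ⟨v - u, hw⟩ →
      k.1 ∈ Nei c r u v := by
    rintro k ⟨h1, h2⟩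
    have e0 : cr c S k 0 = 0 := map_zero _
    have e1 : cr c S k ⟨v - u, hw⟩ = c k.1 v - c k.1 u := map_sub (c k.1) v u
    rw [e0] at h1
    rw [e1] at h2
    change r k.1 - c k.1 u < 0 at h1
    change r k.1 - c k.1 u < _ at h2
    exact ⟨by linarith, by linarith⟩
  refine Nat.card_le_card_of_injective
    (fun k : Nei (cr c S) (rr c r u S) 0 ⟨v - u, hw⟩ => (⟨k.1.1, key k.1 k.2⟩ : Nei c r u v)) ?_
  intro a b hab
  have h1 : a.1.1 = b.1.1 := congrArg (fun t : Nei c r u v => t.1) hab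
  exact Subtype.ext (Subtype.ext h1)

end

/-- MODULE FC. -/
theorem hFC : StFC := by
  intro K _ _ _ H d f c r u v hu hv
  set S : Set (Fin f) := {k | c k u = r k ∧ c k v = r k} with hS
  have hSu : ∀ k ∈ S, c k u = r k := fun k hk => hk.1
  have hw : v - u ∈ Gs c S := by
    rw [mem_Gs]
    intro k hk
    rw [map_sub, hk.1, hk.2, sub_self]
  obtain ⟨m, hm, hW⟩ := H (Gs c S) {k : Fin f // k ∉ S} (cr c S) (rr c r u S) 0 ⟨v - u, hw⟩
    (pair_of c r u v hu hv S hS hw)
  refine ⟨m, hm.trans ?_, walk_of c r u v S hSu hu.1 hw m hW⟩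
  exact Nat.add_le_add_left (nei_le c r u v S hw) _

end Pool.Agent.Helper95.CD
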